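import Pool.Agent.Helper65.LorentzMain

/-!
# A bidemocratic basis of `ℓ₂` without any Lorentz-space squeezing

Scalars `𝕜` are real or complex. Bases are those of the problem: sequences in `ℓ₂` with linearly
dense span and biorthogonal functionals that separate points, both bounded.

The basis: cut the unit vector basis `(e_n)` in blocks of lengths `2^i`, let
`u_i = ∑_k k^{-1/2} e_{(i,k)}` be the block vectors, `h_i = ‖u_i‖² → ∞`, and put
`x_n = e_n + α_i k^{-1/2} u_i`, `x*_n = ⟨e_n - β_i k^{-1/2} u_i, ·⟩` for the `k`-th element `n` of the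
`i`-th block, with `α_i - β_i = α_i β_i h_i` and `|α_i|, |β_i| ≤ h_i^{-1/2}`.

Definitions (`Pool.Agent.Helper65.LorentzDefs`):
* `IsBasis x xs`: basis with functionals `xs`;
* `fundamental 𝕜 x m`: the number `φ_m`; `IsBidemocratic x xs`: `sup_m φ_m φ*_m / m < ∞`;
* `rearr a`: non-increasing rearrangement; `lorentz s a`: the Lorentz norm `‖a‖_{2,s}`;
* `LorentzEmbeds 𝕜 q x`: `‖∑ a_n x_n‖ ≤ C ‖a‖_{2,q}` for finitely supported `a`;
* `EmbedsInLorentz r xs`: `‖(x*_n(f))‖_{2,r} ≤ C ‖f‖` for all `f`.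
-/

set_option autoImplicit false

namespace Pool.Agent.Results.MP_c77635_an.NoLorentzSqueezing

open Pool.Agent.Helper65.Lorentz

/-- There is a bidemocratic basis of `ℓ₂` for which `ℓ_{2,q} ↪ ℓ₂` fails for every `q > 1` and
`ℓ₂ ↪ ℓ_{2,r}` fails for every `0 < r < ∞`. -/
theorem result (𝕜 : Type) [RCLike 𝕜] :
    ∃ (x : ℕ → lp (fun _ : ℕ => 𝕜) 2) (xs : ℕ → (lp (fun _ : ℕ => 𝕜) 2 →L[𝕜] 𝕜)),
      IsBasis x xs ∧ IsBidemocratic x xs ∧
      (∀ q : ℝ, 1 < q → ¬ LorentzEmbeds 𝕜 q x) ∧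
      (∀ r : ℝ, 0 < r → ¬ EmbedsInLorentz r xs) :=
  main 𝕜

end Pool.Agent.Results.MP_c77635_an.NoLorentzSqueezing
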